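import Pool.Agent.Lib.MP_2ab887_nt.P.Clo

/-!
# Irrational canonical heights over `K(t)`, `K` of any characteristic `p > 0`

The morphism `f(z) = (z^p - z) (B(z) + t^(2p)) / (t B(z))` of `P^1`, with
`B(z) = (z^p - z)^p + ∑_{a < p} t^a (1 - (z - a)^(p - 1))^p`, has degree `p^2 + p`; for `P^N` the
remaining coordinates are raised to the power `p^2 + p`. The canonical height of a point `z ∈ K(t)`
with a pole of order at least two at `t = ∞` is irrational if and only if `z` is regular at `t = 0`
and all its coefficients are in the prime field.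
-/

set_option autoImplicit false

open Filter Topology

namespace Pool.Agent.Results.MP_2ab887_nt.HeightCriterion

open Pool.Agent.Lib.MP_2ab887_nt.P

/-- The height of the point `[z_0 : ... : z_N]` of `P^N(K(t))`: the least `D` such that the point has
homogeneous coordinates in `K[t]` of degree at most `D`.  This is the degree of the morphism
`P^1 → P^N`. -/
noncomputable def height {K : Type} [Field K] {N : ℕ} (z : Fin (N + 1) → RatFunc K) : ℕ :=
  sInf {D : ℕ | ∃ (c : RatFunc K) (p : Fin (N + 1) → Polynomial K), c ≠ 0 ∧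
    (∀ i, algebraMap (Polynomial K) (RatFunc K) (p i) = c * z i) ∧ ∀ i, (p i).natDegree ≤ D}

/-- `F_0, ..., F_N` are forms of degree `d` over `K(t)` without common zero in an algebraic closure:
they define a morphism `P^N → P^N` of degree `d` over `K(t)`. -/
def IsMorphism {K : Type} [Field K] {N : ℕ} (d : ℕ)
    (F : Fin (N + 1) → MvPolynomial (Fin (N + 1)) (RatFunc K)) : Prop :=
  (∀ i, (F i).IsHomogeneous d) ∧
    ∀ y : Fin (N + 1) → AlgebraicClosure (RatFunc K), (∀ i, MvPolynomial.aeval y (F i) = 0) → y = 0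

/-- The image of a point under the morphism, in homogeneous coordinates. -/
noncomputable def image {K : Type} [Field K] {N : ℕ}
    (F : Fin (N + 1) → MvPolynomial (Fin (N + 1)) (RatFunc K)) (z : Fin (N + 1) → RatFunc K) :
    Fin (N + 1) → RatFunc K :=
  fun j => MvPolynomial.eval z (F j)

/-- The sequence `d^(-n) h(f^n(P))` converges to `h`: the canonical height of `P` for `f` is `h`. -/
def CanonicalHeightIs {K : Type} [Field K] {N : ℕ} (d : ℕ)
    (F : Fin (N + 1) → MvPolynomial (Fin (N + 1)) (RatFunc K)) (z : Fin (N + 1) → RatFunc K)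
    (h : ℝ) : Prop :=
  Tendsto (fun n : ℕ => (height ((image F)^[n] z) : ℝ) / (d : ℝ) ^ n) atTop (𝓝 h)

/-- The morphism: `HH p x y = x^p - x y^(p-1)`,
`BB p t x y = HH^p + ∑_{a < p} t^a (y^(p-1) - (x - a y)^(p-1))^p y^p`,
`FF p t x y = HH (BB + t^(2p) y^(p^2))`, `GG p t x y = t y^p BB`. -/
noncomputable def form (K : Type) [Field K] (p N : ℕ) :
    Fin (N + 1) → MvPolynomial (Fin (N + 1)) (RatFunc K) :=
  fun i =>
    if i = 0 then FF p (MvPolynomial.C RatFunc.X) (MvPolynomial.X 0) (MvPolynomial.X 1)
    else if i = 1 then GG p (MvPolynomial.C RatFunc.X) (MvPolynomial.X 0) (MvPolynomial.X 1)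
    else MvPolynomial.X i ^ (p * p + p)

/-- The point `[z : 1 : 0 : ... : 0]`. -/
noncomputable def point {K : Type} [Field K] (N : ℕ) (z : RatFunc K) : Fin (N + 1) → RatFunc K :=
  fun i => if i = 0 then z else if i = 1 then 1 else 0

section

variable {K : Type} [Field K] {p : ℕ} [Fact p.Prime] [CharP K p]

theorem algebraMap_inj : Function.Injective (algebraMap (Polynomial K) (RatFunc K)) :=
  IsFractionRing.injective _ _

/-- The point of `P^1` with coordinates the polynomials `P.1`, `P.2`, times `c`. -/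
noncomputable def pt (M : ℕ) (c : RatFunc K) (P : Polynomial K × Polynomial K) :
    Fin (M + 1 + 1) → RatFunc K :=
  fun i => if i = 0 then c * algebraMap (Polynomial K) (RatFunc K) P.1
    else if i = 1 then c * algebraMap (Polynomial K) (RatFunc K) P.2 else 0

theorem FF_mul {R : Type*} [CommRing R] (hp : p ≠ 0) (t c x y : R) :
    FF p t (c * x) (c * y) = c ^ (p * p + p) * FF p t x y := by
  unfold FF
  rw [HH_mul hp, BB_mul hp, mul_pow]
  ring

theorem GG_mul {R : Type*} [CommRing R] (hp : p ≠ 0) (t c x y : R) :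
    GG p t (c * x) (c * y) = c ^ (p * p + p) * GG p t x y := by
  unfold GG
  rw [BB_mul hp, mul_pow]
  ring

theorem pt_succ (M : ℕ) (c : RatFunc K) {P : Polynomial K × Polynomial K} (hP : Val P) :
    image (form K p (M + 1)) (pt M c P) =
      pt M (c ^ (p * p + p) * RatFunc.X ^ dig p P) (nxt p P) := by
  have hp : p ≠ 0 := (Fact.out : p.Prime).ne_zero
  obtain ⟨-, -, hF, hG⟩ := val_nxt (p := p) hP
  have h0 : pt M c P 0 = c * algebraMap (Polynomial K) (RatFunc K) P.1 := by
    simp [pt]
  have h1 : pt M c P 1 = c * algebraMap (Polynomial K) (RatFunc K) P.2 := by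
    simp [pt]
  funext i
  by_cases i0 : i = 0
  · subst i0
    have e : image (form K p (M + 1)) (pt M c P) 0 =
        FF p RatFunc.X (pt M c P 0) (pt M c P 1) := by
      simp only [image, form, if_true, map_FF, MvPolynomial.eval_X, MvPolynomial.eval_C]
    rw [e, h0, h1, FF_mul hp, ← RatFunc.algebraMap_X, ← map_FF, ← hF, map_mul, map_pow, ← mul_assoc]
    rfl
  · by_cases i1 : i = 1
    · subst i1
      have e : image (form K p (M + 1)) (pt M c P) 1 =
          GG p RatFunc.X (pt M c P 0) (pt M c P 1) := by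
        simp only [image, form, one_ne_zero, if_false, if_true, map_GG, MvPolynomial.eval_X,
          MvPolynomial.eval_C]
      rw [e, h0, h1, GG_mul hp, ← RatFunc.algebraMap_X, ← map_GG, ← hG, map_mul, map_pow,
        ← mul_assoc]
      change _ = (if (1 : Fin (M + 1 + 1)) = 0 then _ else if (1 : Fin (M + 1 + 1)) = 1 then
        _ * algebraMap (Polynomial K) (RatFunc K) (nxt p P).2 else 0)
      rw [if_neg one_ne_zero, if_pos rfl]
    · simp [image, form, pt, i0, i1, hp]

theorem iterate_eq (M n : ℕ) {S : Polynomial K × Polynomial K} (hS : Good S) {c : RatFunc K}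
    (hc : c ≠ 0) : ∃ c' : RatFunc K, c' ≠ 0 ∧
      (image (form K p (M + 1)))^[n] (pt M c S) = pt M c' (orb p S n) := by
  induction n with
  | zero => exact ⟨c, hc, rfl⟩
  | succ n ih =>
    obtain ⟨c', hc', h⟩ := ih
    refine ⟨c' ^ (p * p + p) * RatFunc.X ^ dig p (orb p S n),
      mul_ne_zero (pow_ne_zero _ hc') (pow_ne_zero _ RatFunc.X_ne_zero), ?_⟩
    rw [Function.iterate_succ_apply', h, pt_succ M c' (good_orb (p := p) hS n).val]
    rfl

/-- the height of a point with coprime coordinates -/
theorem height_pt (M : ℕ) {c : RatFunc K} (hc' : c ≠ 0) (P : Polynomial K × Polynomial K)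
    (h1 : P.1 ≠ 0) (hdeg : P.2.natDegree ≤ P.1.natDegree) (hcop : IsCoprime P.1 P.2) :
    height (pt M c P) = P.1.natDegree := by
  have hmem : P.1.natDegree ∈ {D : ℕ | ∃ (c' : RatFunc K) (q : Fin (M + 1 + 1) → Polynomial K),
      c' ≠ 0 ∧ (∀ i, algebraMap (Polynomial K) (RatFunc K) (q i) = c' * pt M c P i) ∧
        ∀ i, (q i).natDegree ≤ D} := by
    refine ⟨c⁻¹, fun i => if i = 0 then P.1 else if i = 1 then P.2 else 0,
      inv_ne_zero hc', fun i => ?_, fun i => ?_⟩
    · by_cases i0 : i = 0
      · subst i0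
        simp only [pt, if_true, ← mul_assoc, inv_mul_cancel₀ hc', one_mul]
      · by_cases i1 : i = 1
        · subst i1
          simp only [pt, one_ne_zero, if_false, if_true, ← mul_assoc,
            inv_mul_cancel₀ hc', one_mul]
        · simp [pt, i0, i1]
    · by_cases i0 : i = 0
      · subst i0
        simp only [if_true, le_refl]
      · by_cases i1 : i = 1
        · subst i1
          simp only [one_ne_zero, if_false, if_true]
          exact hdeg
        · simp [i0, i1]
  refine le_antisymm (Nat.sInf_le hmem) (le_csInf ⟨_, hmem⟩ ?_)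
  rintro D ⟨c', q, hc0, hq, hD⟩
  have e0 := hq 0
  have e1 := hq 1
  simp only [pt, if_true, one_ne_zero, if_false] at e0 e1
  have key : q 0 * P.2 = q 1 * P.1 := by
    apply algebraMap_inj
    rw [map_mul, map_mul, e0, e1]
    ring
  have hdvd : P.1 ∣ q 0 := hcop.dvd_of_dvd_mul_right (key ▸ dvd_mul_left _ _)
  have hq0 : q 0 ≠ 0 := by
    intro h
    rw [h, map_zero] at e0
    refine mul_ne_zero hc0 (mul_ne_zero hc' fun h' => h1 ?_) e0.symm
    exact algebraMap_inj (h'.trans (map_zero _).symm)
  exact (Polynomial.natDegree_le_of_dvd hdvd hq0).trans (hD 0)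

/-- the normalized coordinates of a point -/
theorem exists_start {z : RatFunc K} (hz : z.denom.natDegree + 2 ≤ z.num.natDegree) :
    ∃ S : Polynomial K × Polynomial K, Good S ∧
      z * algebraMap (Polynomial K) (RatFunc K) S.2 = algebraMap (Polynomial K) (RatFunc K) S.1 ∧
      (z.denom.eval 0 ≠ 0 ↔ S.2.eval 0 = 1) := by
  have hD : algebraMap (Polynomial K) (RatFunc K) z.denom ≠ 0 := fun h =>
    z.denom_ne_zero (algebraMap_inj (h.trans (map_zero _).symm))
  have hmul : z * algebraMap (Polynomial K) (RatFunc K) z.denom =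
      algebraMap (Polynomial K) (RatFunc K) z.num := by
    rw [← eq_div_iff hD, RatFunc.num_div_denom]
  have hcop := RatFunc.isCoprime_num_denom z
  have hnum : z.num ≠ 0 := by
    rintro h
    rw [h, Polynomial.natDegree_zero] at hz
    omega
  by_cases h0 : z.denom.eval 0 = 0
  · refine ⟨(z.num, z.denom), ⟨Or.inr ⟨h0, fun h1 => ?_⟩, ⟨hnum, z.denom_ne_zero, hz⟩, hcop⟩,
      hmul, ?_⟩
    · -- `t` divides both
      have d1 : Polynomial.X ∣ z.num := by
        rw [Polynomial.X_dvd_iff, Polynomial.coeff_zero_eq_eval_zero]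
        exact h1
      have d2 : Polynomial.X ∣ z.denom := by
        rw [Polynomial.X_dvd_iff, Polynomial.coeff_zero_eq_eval_zero]
        exact h0
      exact Polynomial.not_isUnit_X (hcop.isUnit_of_dvd' d1 d2)
    · constructor
      · intro h
        exact absurd h0 h
      · intro h
        exact absurd (h0.symm.trans h) zero_ne_one
  · obtain ⟨c, hc⟩ : ∃ c : K, c = (z.denom.eval 0)⁻¹ := ⟨_, rfl⟩
    have hc0 : c ≠ 0 := by
      rw [hc]
      exact inv_ne_zero h0
    have hC0 : (Polynomial.C c : Polynomial K) ≠ 0 := Polynomial.C_ne_zero.2 hc0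
    have hu : IsUnit (Polynomial.C c : Polynomial K) := Polynomial.isUnit_C.2 hc0.isUnit
    have h1 : (Polynomial.C c * z.denom).eval 0 = 1 := by
      rw [Polynomial.eval_mul, Polynomial.eval_C, hc, inv_mul_cancel₀ h0]
    refine ⟨(Polynomial.C c * z.num, Polynomial.C c * z.denom),
      ⟨Or.inl h1, ⟨mul_ne_zero hC0 hnum, mul_ne_zero hC0 z.denom_ne_zero, ?_⟩, ?_⟩, ?_, ?_⟩
    · change (Polynomial.C c * z.denom).natDegree + 2 ≤ (Polynomial.C c * z.num).natDegree
      rw [Polynomial.natDegree_C_mul hc0, Polynomial.natDegree_C_mul hc0]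
      exact hz
    · change IsCoprime (Polynomial.C c * z.num) (Polynomial.C c * z.denom)
      exact (isCoprime_mul_unit_left hu _ _).2 hcop
    · change z * algebraMap (Polynomial K) (RatFunc K) (Polynomial.C c * z.denom) =
        algebraMap (Polynomial K) (RatFunc K) (Polynomial.C c * z.num)
      rw [map_mul, map_mul, ← hmul]
      ring
    · exact ⟨fun _ => h1, fun _ => h0⟩

/-! ### the forms -/

section Homog

variable {σ R : Type*} [CommRing R]

theorem HH_homog (hp : p ≠ 0) {x y : MvPolynomial σ R} (hx : x.IsHomogeneous 1)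
    (hy : y.IsHomogeneous 1) : (HH p x y).IsHomogeneous p := by
  unfold HH
  have h1 : (x ^ p).IsHomogeneous p := by simpa using hx.pow p
  have h2 : (x * y ^ (p - 1)).IsHomogeneous p := by
    have h3 := hx.mul (hy.pow (p - 1))
    rwa [one_mul, show 1 + (p - 1) = p by omega] at h3
  exact h1.sub h2

theorem LL_homog (a : ℕ) {x y : MvPolynomial σ R} (hx : x.IsHomogeneous 1)
    (hy : y.IsHomogeneous 1) : (LL p a x y).IsHomogeneous (p - 1) := by
  unfold LL
  have h1 : (y ^ (p - 1)).IsHomogeneous (p - 1) := by simpa using hy.pow (p - 1)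
  have h2 : ((a : MvPolynomial σ R) * y).IsHomogeneous 1 := by
    have h3 := (MvPolynomial.isHomogeneous_C σ (a : R)).mul hy
    rwa [zero_add, map_natCast] at h3
  have h4 : ((x - (a : MvPolynomial σ R) * y) ^ (p - 1)).IsHomogeneous (p - 1) := by
    simpa using (hx.sub h2).pow (p - 1)
  exact h1.sub h4

theorem BB_homog (hp : p ≠ 0) (c : R) {x y : MvPolynomial σ R} (hx : x.IsHomogeneous 1)
    (hy : y.IsHomogeneous 1) : (BB p (MvPolynomial.C c) x y).IsHomogeneous (p * p) := by
  unfold BB
  refine ((HH_homog hp hx hy).pow p).add (MvPolynomial.IsHomogeneous.sum _ _ _ fun a _ => ?_)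
  have h1 : (MvPolynomial.C c ^ a : MvPolynomial σ R).IsHomogeneous 0 := by
    simpa using (MvPolynomial.isHomogeneous_C σ c).pow a
  have h2 := (h1.mul ((LL_homog (p := p) a hx hy).pow p)).mul (hy.pow p)
  have h3 : 0 + (p - 1) * p + 1 * p = p * p := by
    obtain ⟨q, rfl⟩ := Nat.exists_eq_succ_of_ne_zero hp
    simp only [Nat.succ_eq_add_one, Nat.add_sub_cancel]
    ring
  rwa [h3] at h2

end Homog

omit [CharP K p] in
theorem form_homog (M : ℕ) (i : Fin (M + 1 + 1)) :
    (form K p (M + 1) i).IsHomogeneous (p * p + p) := by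
  have hp : p ≠ 0 := (Fact.out : p.Prime).ne_zero
  have hX : ∀ j : Fin (M + 1 + 1),
      (MvPolynomial.X j : MvPolynomial (Fin (M + 1 + 1)) (RatFunc K)).IsHomogeneous 1 :=
    fun j => MvPolynomial.isHomogeneous_X _ j
  have hB := BB_homog (p := p) hp (RatFunc.X : RatFunc K) (hX 0) (hX 1)
  have hH := HH_homog (p := p) hp (hX 0) (hX 1)
  have hy : ∀ k : ℕ, (MvPolynomial.X 1 ^ k :
      MvPolynomial (Fin (M + 1 + 1)) (RatFunc K)).IsHomogeneous k := fun k => by
    simpa using (hX 1).pow k
  have hC : ∀ k : ℕ, (MvPolynomial.C RatFunc.X ^ k :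
      MvPolynomial (Fin (M + 1 + 1)) (RatFunc K)).IsHomogeneous 0 := fun k => by
    simpa using (MvPolynomial.isHomogeneous_C (Fin (M + 1 + 1)) (RatFunc.X : RatFunc K)).pow k
  unfold form FF GG
  split_ifs
  · have h1 := (hC (2 * p)).mul (hy (p * p))
    rw [zero_add] at h1
    have h2 := hH.mul (hB.add h1)
    rwa [add_comm p (p * p)] at h2
  · have h1 := ((MvPolynomial.isHomogeneous_C (Fin (M + 1 + 1)) (RatFunc.X : RatFunc K)).mul
      (hy p)).mul hB
    rwa [zero_add, add_comm p (p * p)] at h1
  · simpa using (hX i).pow (p * p + p)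

theorem form_noZero (M : ℕ) (y : Fin (M + 1 + 1) → AlgebraicClosure (RatFunc K))
    (hy : ∀ i, MvPolynomial.aeval y (form K p (M + 1) i) = 0) : y = 0 := by
  obtain ⟨τ, hτ⟩ : ∃ τ, τ = algebraMap (RatFunc K) (AlgebraicClosure (RatFunc K)) RatFunc.X :=
    ⟨_, rfl⟩
  have hX : τ ≠ 0 := by
    rw [hτ, ne_eq, map_eq_zero]
    exact RatFunc.X_ne_zero
  haveI : CharP (RatFunc K) p := charP_of_injective_algebraMap
    (algebraMap K (RatFunc K)).injective p
  haveI : CharP (AlgebraicClosure (RatFunc K)) p := charP_of_injective_algebraMap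
    (algebraMap (RatFunc K) (AlgebraicClosure (RatFunc K))).injective p
  have e0 : FF p τ (y 0) (y 1) = 0 := by
    have h := hy 0
    have e := map_FF (MvPolynomial.aeval y :
      MvPolynomial (Fin (M + 1 + 1)) (RatFunc K) →ₐ[RatFunc K]
      AlgebraicClosure (RatFunc K)).toRingHom p (MvPolynomial.C RatFunc.X) (MvPolynomial.X 0)
      (MvPolynomial.X 1)
    simp only [form, if_true] at h
    simp only [AlgHom.toRingHom_eq_coe, RingHom.coe_coe, MvPolynomial.aeval_C,
      MvPolynomial.aeval_X] at e
    rw [h] at e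
    rw [hτ]
    exact e.symm
  have e1 : GG p τ (y 0) (y 1) = 0 := by
    have h := hy 1
    have e := map_GG (MvPolynomial.aeval y :
      MvPolynomial (Fin (M + 1 + 1)) (RatFunc K) →ₐ[RatFunc K]
      AlgebraicClosure (RatFunc K)).toRingHom p (MvPolynomial.C RatFunc.X) (MvPolynomial.X 0)
      (MvPolynomial.X 1)
    simp only [form, one_ne_zero, if_false, if_true] at h
    simp only [AlgHom.toRingHom_eq_coe, RingHom.coe_coe, MvPolynomial.aeval_C,
      MvPolynomial.aeval_X] at e
    rw [h] at e
    rw [hτ]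
    exact e.symm
  obtain ⟨a, b⟩ := no_common_zero hX e0 e1
  funext i
  by_cases i0 : i = 0
  · rw [i0]
    exact a
  · by_cases i1 : i = 1
    · rw [i1]
      exact b
    · have h := hy i
      simp only [form, i0, i1, if_false, map_pow, MvPolynomial.aeval_X] at h
      have hp : 0 < p := (Fact.out : p.Prime).pos
      exact pow_eq_zero_iff (by positivity) |>.1 h

end

/-- Let `K` be a field of characteristic `p > 0` and `N ≥ 1`.  Then there is a point of
`P^N(K(t))` with irrational canonical height for some morphism of `P^N` of degree at least two over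
`K(t)`.  More precisely: the forms `form K p N` define a morphism of degree `p^2 + p`; the canonical
height of the point `[t^2 : 1 : 0 : ... : 0]` is irrational; and for every `z ∈ K(t)` with a pole of
order at least two at `t = ∞` the canonical height of `[z : 1 : 0 : ... : 0]` exists, and it is
irrational if and only if `z` has no pole at `t = 0` and is in the field generated by `t` (the field
of rational functions in `t` over the prime field). -/
theorem result (p : ℕ) (hp : p.Prime) (K : Type) [Field K] [CharP K p] (N : ℕ) (hN : 1 ≤ N) :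
    (∃ (d : ℕ) (F : Fin (N + 1) → MvPolynomial (Fin (N + 1)) (RatFunc K))
      (P : Fin (N + 1) → RatFunc K) (h : ℝ), 2 ≤ d ∧ IsMorphism d F ∧ P ≠ 0 ∧
        CanonicalHeightIs d F P h ∧ Irrational h) ∧
    IsMorphism (p * p + p) (form K p N) ∧
    (∃ h : ℝ, CanonicalHeightIs (p * p + p) (form K p N) (point N (RatFunc.X ^ 2)) h ∧
      Irrational h) ∧
    ∀ z : RatFunc K, z.denom.natDegree + 2 ≤ z.num.natDegree →
      ∃ h : ℝ, CanonicalHeightIs (p * p + p) (form K p N) (point N z) h ∧
        (Irrational h ↔ z.denom.eval 0 ≠ 0 ∧ z ∈ Subfield.closure {(RatFunc.X : RatFunc K)}) := by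
  haveI : Fact p.Prime := ⟨hp⟩
  obtain ⟨M, rfl⟩ : ∃ M, N = M + 1 := ⟨N - 1, by omega⟩
  have hmor : IsMorphism (p * p + p) (form K p (M + 1)) := ⟨form_homog M, form_noZero M⟩
  have main : ∀ z : RatFunc K, z.denom.natDegree + 2 ≤ z.num.natDegree →
      ∃ h : ℝ, CanonicalHeightIs (p * p + p) (form K p (M + 1)) (point (M + 1) z) h ∧
        (Irrational h ↔ z.denom.eval 0 ≠ 0 ∧
          z ∈ Subfield.closure {(RatFunc.X : RatFunc K)}) := by
    intro z hz
    obtain ⟨S, hS, hzS, h0⟩ := exists_start hz
    obtain ⟨h, hlim, hirr⟩ := criterion (p := p) hS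
    have hS2 : algebraMap (Polynomial K) (RatFunc K) S.2 ≠ 0 := fun h =>
      hS.deg.2.1 (algebraMap_inj (h.trans (map_zero _).symm))
    have hzS' : z = algebraMap (Polynomial K) (RatFunc K) S.1 /
        algebraMap (Polynomial K) (RatFunc K) S.2 := (eq_div_iff hS2).2 hzS
    refine ⟨h, ?_, ?_⟩
    · unfold CanonicalHeightIs
      refine hlim.congr fun n => ?_
      have hpt : point (M + 1) z = pt M (algebraMap (Polynomial K) (RatFunc K) S.2)⁻¹ S := by
        funext i
        by_cases i0 : i = 0
        · subst i0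
          simp only [point, pt, if_true]
          rw [hzS', div_eq_inv_mul]
        · by_cases i1 : i = 1
          · subst i1
            simp only [point, pt, one_ne_zero, if_false, if_true]
            rw [inv_mul_cancel₀ hS2]
          · simp only [point, pt, i0, i1, if_false]
      obtain ⟨c', hc', he⟩ := iterate_eq (p := p) M n hS (inv_ne_zero hS2)
      have hG := good_orb (p := p) hS n
      rw [hpt, he, height_pt M hc' _ hG.deg.1 (by have := hG.deg.2.2; omega) hG.cop]
    · rw [hirr, h0]
      constructor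
      · rintro ⟨h1, h2, h3⟩
        refine ⟨h1, ?_⟩
        rw [hzS']
        exact (mem_closure_iff (p := p) hS.cop h1).2 ⟨h2, h3⟩
      · rintro ⟨h1, h2⟩
        rw [hzS'] at h2
        exact ⟨h1, (mem_closure_iff (p := p) hS.cop h1).1 h2⟩
  have hex : ∃ h : ℝ, CanonicalHeightIs (p * p + p) (form K p (M + 1))
      (point (M + 1) (RatFunc.X ^ 2)) h ∧ Irrational h := by
    have hX2 : (RatFunc.X ^ 2 : RatFunc K) =
        algebraMap (Polynomial K) (RatFunc K) (Polynomial.X ^ 2) := by
      rw [map_pow, RatFunc.algebraMap_X]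
    have hnum : (RatFunc.X ^ 2 : RatFunc K).num = Polynomial.X ^ 2 := by
      rw [hX2, RatFunc.num_algebraMap]
    have hden : (RatFunc.X ^ 2 : RatFunc K).denom = 1 := by
      rw [hX2, RatFunc.denom_algebraMap]
    obtain ⟨h, h1, h2⟩ := main (RatFunc.X ^ 2) (by
      rw [hnum, hden, Polynomial.natDegree_one, Polynomial.natDegree_X_pow])
    refine ⟨h, h1, h2.2 ⟨?_, ?_⟩⟩
    · rw [hden, Polynomial.eval_one]
      exact one_ne_zero
    · exact pow_mem (Subfield.subset_closure (Set.mem_singleton _)) 2
  refine ⟨?_, hmor, hex, main⟩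
  obtain ⟨h, h1, h2⟩ := hex
  refine ⟨p * p + p, form K p (M + 1), point (M + 1) (RatFunc.X ^ 2), h, ?_, hmor, ?_, h1, h2⟩
  · have := hp.two_le
    nlinarith
  · intro h0
    have h3 := congrFun h0 1
    simp [point] at h3

end Pool.Agent.Results.MP_2ab887_nt.HeightCriterion
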